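import Pool.Agent.R963.Bass.Core

open Finset BigOperators

set_option maxHeartbeats 400000

namespace Pool.Agent.R963.Bass

noncomputable section

variable {M : ℕ}

/-- in-weight of `j` from `U` -/
def Qin (w : Fin M → Fin M → ℝ) (U : Finset (Fin M)) (j : Fin M) : ℝ := ∑ k ∈ U, w k j

/-- internal weight -/
def W (w : Fin M → Fin M → ℝ) (U : Finset (Fin M)) : ℝ := ∑ j ∈ U, Qin w U j

/-- centred internal weight, `s = 2q/(M-1)` -/
def wc (s : ℝ) (w : Fin M → Fin M → ℝ) (U : Finset (Fin M)) : ℝ :=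
  W w U - s * ((U.card : ℝ) * ((U.card : ℝ) - 1) / 2)

lemma rate_eq {p q : ℝ} {w : Fin M → Fin M → ℝ} (hq : ∀ j, ∑ k, w k j = q)
    (A : Finset (Fin M)) (j : Fin M) : rate p w A j = p + q - Qin w Aᶜ j := by
  unfold rate Qin
  have := Finset.sum_add_sum_compl A (fun k => w k j)
  rw [hq j] at this
  linarith

lemma W_erase {w : Fin M → Fin M → ℝ} (h0 : ∀ j, w j j = 0) {U : Finset (Fin M)} {j : Fin M}
    (hj : j ∈ U) : W w (U.erase j) = W w U - Qin w U j - ∑ i ∈ U, w j i := by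
  unfold W
  have h1 : ∀ i ∈ U.erase j, Qin w (U.erase j) i = Qin w U i - w j i := by
    intro i _
    unfold Qin
    rw [← Finset.sum_erase_add U _ hj]
    ring
  rw [Finset.sum_congr rfl h1, Finset.sum_sub_distrib]
  have h2 := Finset.sum_erase_add U (fun i => Qin w U i) hj
  have h3 := Finset.sum_erase_add U (fun i => w j i) hj
  simp only [h0] at h3
  linarith

/-- `d_j(U)` -/
def dd (s : ℝ) (w : Fin M → Fin M → ℝ) (U : Finset (Fin M)) (j : Fin M) : ℝ :=
  2 * Qin w U j - s * ((U.card : ℝ) - 1)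

lemma wc_erase {s : ℝ} {w : Fin M → Fin M → ℝ} (h0 : ∀ j, w j j = 0)
    (hs : ∀ i j, w i j = w j i) {U : Finset (Fin M)} {j : Fin M}
    (hj : j ∈ U) : wc s w (U.erase j) = wc s w U - dd s w U j := by
  have hc : ((U.erase j).card : ℝ) = U.card - 1 := by
    rw [Finset.card_erase_of_mem hj, Nat.cast_sub (Finset.card_pos.2 ⟨j, hj⟩)]
    simp
  unfold wc dd
  rw [W_erase h0 hj, hc]
  have : ∑ i ∈ U, w j i = Qin w U j := Finset.sum_congr rfl (fun i _ => hs j i)
  rw [this]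
  ring

lemma wc_card_le_one {s : ℝ} {w : Fin M → Fin M → ℝ} (h0 : ∀ j, w j j = 0)
    {U : Finset (Fin M)} (hU : U.card ≤ 1) : wc s w U = 0 := by
  rcases Nat.le_one_iff_eq_zero_or_eq_one.1 hU with h | h
  · rw [Finset.card_eq_zero] at h
    subst h
    simp [wc, W]
  · obtain ⟨a, rfl⟩ := Finset.card_eq_one.1 h
    simp [wc, W, Qin, h0]

/-- total rate -/
lemma total_rate {p q s : ℝ} {w : Fin M → Fin M → ℝ} (hq : ∀ j, ∑ k, w k j = q)
    (A : Finset (Fin M)) :
    ∑ j ∈ Aᶜ, rate p w A j = (p + q) * (Aᶜ.card : ℝ)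
      - s * ((Aᶜ.card : ℝ) * ((Aᶜ.card : ℝ) - 1) / 2) - wc s w Aᶜ := by
  simp_rw [rate_eq hq]
  rw [Finset.sum_sub_distrib]
  unfold wc W
  simp only [Finset.sum_const, nsmul_eq_mul]
  ring

/-- binomial identities in `ℝ` -/
lemma choose_id1 (n k : ℕ) :
    ((n : ℝ) + 1) * (n.choose k : ℝ) = ((n : ℝ) + 1 - k) * ((n + 1).choose k : ℝ) := by
  rcases Nat.lt_or_ge (n + 1) k with h | h
  · rw [Nat.choose_eq_zero_of_lt h, Nat.choose_eq_zero_of_lt (by omega)]
    simp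
  · have := Nat.choose_mul_succ_eq n k
    have h2 : ((n.choose k * (n + 1) : ℕ) : ℝ) = (((n + 1).choose k * (n + 1 - k) : ℕ) : ℝ) := by
      rw [this]
    push_cast [Nat.cast_sub h] at h2
    linarith

lemma choose_id2 (n k : ℕ) :
    ((n : ℝ) + 1) * (n.choose k : ℝ) = ((k : ℝ) + 1) * ((n + 1).choose (k + 1) : ℝ) := by
  have := Nat.add_one_mul_choose_eq n k
  have h2 : (((n + 1) * n.choose k : ℕ) : ℝ) = (((n + 1).choose (k + 1) * (k + 1) : ℕ) : ℝ) := by
    rw [this]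
  push_cast at h2
  linarith

lemma choose_pascal (n k : ℕ) :
    ((n + 1).choose (k + 1) : ℝ) = (n.choose k : ℝ) + (n.choose (k + 1) : ℝ) := by
  rw [Nat.choose_succ_succ]; push_cast; ring

end

end Pool.Agent.R963.Bass
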