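import Mathlib

open Finset BigOperators

set_option maxHeartbeats 400000

namespace Pool.Agent.R963.Bass

noncomputable section

variable {M : ℕ}

/-- adoption rate of node `j` when the set of adopters is `A` -/
def rate (p : ℝ) (w : Fin M → Fin M → ℝ) (A : Finset (Fin M)) (j : Fin M) : ℝ :=
  p + ∑ k ∈ A, w k j

/-- generator of the Markov chain of the set of adopters -/
def gen (p : ℝ) (w : Fin M → Fin M → ℝ) : Matrix (Finset (Fin M)) (Finset (Fin M)) ℝ :=
  fun A B => ∑ j ∈ Aᶜ, rate p w A j *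
    ((if B = insert j A then 1 else 0) - (if B = A then 1 else 0))

/-- `P(X(t) = A)` for the chain started with no adopters -/
def law (p : ℝ) (w : Fin M → Fin M → ℝ) (t : ℝ) (A : Finset (Fin M)) : ℝ :=
  (NormedSpace.exp (t • gen p w)) ∅ A

/-- expected adoption level -/
def adoption (p : ℝ) (w : Fin M → Fin M → ℝ) (t : ℝ) : ℝ :=
  (1 / (M : ℝ)) * ∑ A, law p w t A * (A.card : ℝ)

/-- the homogeneous complete network -/
def complete (q : ℝ) : Fin M → Fin M → ℝ := fun k j => if k = j then 0 else q / ((M : ℝ) - 1)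

/-- generator acting on functions -/
def Lop (p : ℝ) (w : Fin M → Fin M → ℝ) (φ : Finset (Fin M) → ℝ) (A : Finset (Fin M)) : ℝ :=
  ∑ j ∈ Aᶜ, rate p w A j * (φ (insert j A) - φ A)

lemma gen_mul (p : ℝ) (w : Fin M → Fin M → ℝ) (φ : Finset (Fin M) → ℝ) (A : Finset (Fin M)) :
    ∑ B, gen p w A B * φ B = Lop p w φ A := by
  unfold gen Lop
  simp_rw [Finset.sum_mul]
  rw [Finset.sum_comm]
  refine Finset.sum_congr rfl (fun j _ => ?_)
  simp_rw [mul_assoc, sub_mul]
  rw [← Finset.mul_sum, Finset.sum_sub_distrib]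
  simp

lemma hasDerivAt_law (p : ℝ) (w : Fin M → Fin M → ℝ) (t : ℝ) (A : Finset (Fin M)) :
    HasDerivAt (fun s => law p w s A) (∑ B, law p w t B * gen p w B A) t := by
  letI : NormedRing (Matrix (Finset (Fin M)) (Finset (Fin M)) ℝ) := Matrix.linftyOpNormedRing
  letI : NormedAlgebra ℝ (Matrix (Finset (Fin M)) (Finset (Fin M)) ℝ) :=
    Matrix.linftyOpNormedAlgebra
  have h := hasDerivAt_exp_smul_const (𝕂 := ℝ) (gen p w) t
  have h2 := (LinearMap.toContinuousLinearMap
    (Matrix.entryLinearMap ℝ ℝ (∅ : Finset (Fin M)) A)).hasFDerivAt.comp_hasDerivAt t h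
  have h3 : (LinearMap.toContinuousLinearMap
    (Matrix.entryLinearMap ℝ ℝ (∅ : Finset (Fin M)) A))
      (NormedSpace.exp (t • gen p w) * gen p w) = ∑ B, law p w t B * gen p w B A := by
    simp [law, Matrix.mul_apply]
  exact h2.congr_deriv h3

lemma law_zero (p : ℝ) (w : Fin M → Fin M → ℝ) (A : Finset (Fin M)) :
    law p w 0 A = if A = ∅ then 1 else 0 := by
  unfold law
  rw [zero_smul]
  letI : NormedRing (Matrix (Finset (Fin M)) (Finset (Fin M)) ℝ) := Matrix.linftyOpNormedRing
  letI : NormedAlgebra ℝ (Matrix (Finset (Fin M)) (Finset (Fin M)) ℝ) :=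
    Matrix.linftyOpNormedAlgebra
  rw [NormedSpace.exp_zero, Matrix.one_apply]
  simp [eq_comm]

/-- expectation of `φ` at time `t` -/
def Ex (p : ℝ) (w : Fin M → Fin M → ℝ) (φ : Finset (Fin M) → ℝ) (t : ℝ) : ℝ :=
  ∑ A, law p w t A * φ A

lemma hasDerivAt_Ex (p : ℝ) (w : Fin M → Fin M → ℝ) (φ : Finset (Fin M) → ℝ) (t : ℝ) :
    HasDerivAt (Ex p w φ) (Ex p w (Lop p w φ) t) t := by
  have h : HasDerivAt (fun s => ∑ A, law p w s A * φ A)
      (∑ A, (∑ B, law p w t B * gen p w B A) * φ A) t :=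
    HasDerivAt.fun_sum (fun A _ => (hasDerivAt_law p w t A).mul_const (φ A))
  have e : (∑ A, (∑ B, law p w t B * gen p w B A) * φ A) = Ex p w (Lop p w φ) t := by
    unfold Ex
    simp_rw [Finset.sum_mul]
    rw [Finset.sum_comm]
    refine Finset.sum_congr rfl (fun B _ => ?_)
    rw [← gen_mul, Finset.mul_sum]
    exact Finset.sum_congr rfl (fun A _ => mul_assoc _ _ _)
  rw [e] at h
  exact h

lemma Ex_zero (p : ℝ) (w : Fin M → Fin M → ℝ) (φ : Finset (Fin M) → ℝ) :
    Ex p w φ 0 = φ ∅ := by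
  unfold Ex
  simp [law_zero]

/-- scalar comparison -/
lemma ode_nonneg {f f' : ℝ → ℝ} {R : ℝ} (hf : ∀ t, HasDerivAt f (f' t) t) (h0 : 0 ≤ f 0)
    (h : ∀ t, 0 ≤ t → -R * f t ≤ f' t) : ∀ t, 0 ≤ t → 0 ≤ f t := by
  intro t ht
  have hg : ∀ s, HasDerivAt (fun s => Real.exp (R * s) * f s)
      (Real.exp (R * s) * (R * f s + f' s)) s := by
    intro s
    have h1 : HasDerivAt (fun s => Real.exp (R * s)) (Real.exp (R * s) * R) s := by
      have := (((hasDerivAt_id s).const_mul R)).exp
      simpa using this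
    exact (h1.fun_mul (hf s)).congr_deriv (by ring)
  have hm : MonotoneOn (fun s => Real.exp (R * s) * f s) (Set.Ici 0) := by
    apply monotoneOn_of_deriv_nonneg (convex_Ici 0)
    · exact fun s _ => (hg s).continuousAt.continuousWithinAt
    · exact fun s _ => (hg s).differentiableAt.differentiableWithinAt
    · intro s hs
      rw [interior_Ici] at hs
      rw [(hg s).deriv]
      have := h s (le_of_lt hs)
      apply mul_nonneg (Real.exp_pos _).le
      linarith
  have := hm (Set.mem_Ici.2 le_rfl) (Set.mem_Ici.2 ht) ht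
  simp only [mul_zero, Real.exp_zero, one_mul] at this
  have h3 : 0 ≤ Real.exp (R * t) * f t := h0.trans this
  exact nonneg_of_mul_nonneg_right h3 (Real.exp_pos _)

lemma ode_eq {f f' : ℝ → ℝ} {R : ℝ} (hf : ∀ t, HasDerivAt f (f' t) t) (h0 : f 0 = 0)
    (h : ∀ t, 0 ≤ t → f' t = -R * f t) : ∀ t, 0 ≤ t → f t = 0 := by
  intro t ht
  have a := ode_nonneg hf h0.ge (fun s hs => (h s hs).ge) t ht
  have b := ode_nonneg (f := fun s => - f s) (f' := fun s => - f' s) (R := R)
    (fun s => (hf s).neg) (by simp [h0]) (fun s hs => by rw [h s hs]; linarith) t ht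
  linarith

lemma law_deriv_eq (p : ℝ) (w : Fin M → Fin M → ℝ) (t : ℝ) (A : Finset (Fin M)) :
    ∑ B, law p w t B * gen p w B A =
      ∑ j ∈ A, law p w t (A.erase j) * rate p w (A.erase j) j
        - (∑ j ∈ Aᶜ, rate p w A j) * law p w t A := by
  have h1 : ∑ B, law p w t B * gen p w B A =
      Ex p w (Lop p w (fun B => if B = A then 1 else 0)) t := by
    unfold Ex
    refine Finset.sum_congr rfl (fun B _ => ?_)
    rw [← gen_mul]
    simp
  rw [h1]
  unfold Ex Lop
  have h2 : ∀ B : Finset (Fin M), law p w t B * ∑ j ∈ Bᶜ, rate p w B j *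
      ((if insert j B = A then (1:ℝ) else 0) - if B = A then 1 else 0) =
      (∑ j ∈ Bᶜ, (if insert j B = A then law p w t B * rate p w B j else 0)) -
        (if B = A then (∑ j ∈ Aᶜ, rate p w A j) * law p w t A else 0) := by
    intro B
    rw [Finset.mul_sum]
    have : ∀ j ∈ Bᶜ, law p w t B * (rate p w B j *
        ((if insert j B = A then (1:ℝ) else 0) - if B = A then 1 else 0)) =
        (if insert j B = A then law p w t B * rate p w B j else 0) -
        (if B = A then law p w t B * rate p w B j else 0) := by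
      intro j _
      split_ifs <;> ring
    rw [Finset.sum_congr rfl this, Finset.sum_sub_distrib]
    congr 1
    by_cases hB : B = A
    · subst hB
      simp only [if_true]
      rw [← Finset.mul_sum, mul_comm]
    · simp [hB]
  simp_rw [h2]
  rw [Finset.sum_sub_distrib]
  congr 1
  · -- sum over B and j∉B with insert j B = A
    have : ∀ B : Finset (Fin M), (∑ j ∈ Bᶜ,
        (if insert j B = A then law p w t B * rate p w B j else 0)) =
        ∑ j : Fin M, (if j ∈ A ∧ B = A.erase j then law p w t B * rate p w B j else 0) := by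
      intro B
      rw [← Finset.sum_filter, ← Finset.sum_filter]
      refine Finset.sum_congr ?_ (fun _ _ => rfl)
      ext j
      simp only [mem_filter, mem_compl, mem_univ, true_and]
      constructor
      · rintro ⟨hj1, hj2⟩
        rw [← hj2]
        exact ⟨mem_insert_self _ _, (erase_insert hj1).symm⟩
      · rintro ⟨hj1, hj2⟩
        rw [hj2]
        exact ⟨notMem_erase _ _, insert_erase hj1⟩
    simp_rw [this]
    rw [Finset.sum_comm]
    have h3 : ∀ j : Fin M, (∑ B : Finset (Fin M),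
        (if j ∈ A ∧ B = A.erase j then law p w t B * rate p w B j else 0)) =
        if j ∈ A then law p w t (A.erase j) * rate p w (A.erase j) j else 0 := by
      intro j
      by_cases hj : j ∈ A
      · simp [hj]
      · simp [hj]
    simp_rw [h3]
    rw [← Finset.sum_filter]
    refine Finset.sum_congr (by simp) (fun _ _ => rfl)
  · simp

lemma law_nonneg {p : ℝ} {w : Fin M → Fin M → ℝ} (hp : 0 ≤ p) (hw : ∀ i j, 0 ≤ w i j) :
    ∀ (A : Finset (Fin M)) (t : ℝ), 0 ≤ t → 0 ≤ law p w t A := by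
  intro A
  induction A using Finset.strongInduction with
  | H A ih =>
    apply ode_nonneg (R := ∑ j ∈ Aᶜ, rate p w A j) (hasDerivAt_law p w · A)
    · rw [law_zero]; split_ifs <;> norm_num
    · intro t ht
      rw [law_deriv_eq]
      have : 0 ≤ ∑ j ∈ A, law p w t (A.erase j) * rate p w (A.erase j) j := by
        refine Finset.sum_nonneg (fun j hj => mul_nonneg (ih _ (erase_ssubset hj) t ht) ?_)
        exact add_nonneg hp (Finset.sum_nonneg (fun k _ => hw k j))
      linarith

lemma sum_law (p : ℝ) (w : Fin M → Fin M → ℝ) (t : ℝ) : ∑ A, law p w t A = 1 := by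
  have h : ∀ s, HasDerivAt (Ex p w (fun _ => 1)) 0 s := by
    intro s
    have := hasDerivAt_Ex p w (fun _ => 1) s
    have e : Ex p w (Lop p w (fun _ => 1)) s = 0 := by
      unfold Ex Lop; simp
    rwa [e] at this
  have hc : Ex p w (fun _ => 1) t = Ex p w (fun _ => 1) 0 :=
    is_const_of_deriv_eq_zero (fun s => (h s).differentiableAt) (fun s => (h s).deriv) t 0
  rw [Ex_zero] at hc
  simpa [Ex] using hc

lemma Ex_mono {p : ℝ} {w : Fin M → Fin M → ℝ} (hp : 0 ≤ p) (hw : ∀ i j, 0 ≤ w i j)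
    {φ ψ : Finset (Fin M) → ℝ} (h : ∀ A, φ A ≤ ψ A) {t : ℝ} (ht : 0 ≤ t) :
    Ex p w φ t ≤ Ex p w ψ t :=
  Finset.sum_le_sum (fun A _ => mul_le_mul_of_nonneg_left (h A) (law_nonneg hp hw A t ht))

lemma Ex_lin (p : ℝ) (w : Fin M → Fin M → ℝ) (a b : ℝ) (φ ψ : Finset (Fin M) → ℝ) (t : ℝ) :
    Ex p w (fun A => a * φ A + b * ψ A) t = a * Ex p w φ t + b * Ex p w ψ t := by
  unfold Ex
  rw [Finset.mul_sum, Finset.mul_sum, ← Finset.sum_add_distrib]
  exact Finset.sum_congr rfl (fun A _ => by ring)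

end

end Pool.Agent.R963.Bass
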