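import Pool.Agent.R963.Bass.Stage

open Finset BigOperators

set_option maxHeartbeats 400000

namespace Pool.Agent.R963.Bass

noncomputable section

variable {M : ℕ}

lemma W_univ {q : ℝ} {w : Fin M → Fin M → ℝ} (hq : ∀ j, ∑ k, w k j = q) :
    W w univ = M * q := by
  unfold W Qin
  simp [hq]

lemma wc_univ {q s : ℝ} (hM : 2 ≤ M) (hs : s = 2 * q / ((M : ℝ) - 1))
    {w : Fin M → Fin M → ℝ} (hq : ∀ j, ∑ k, w k j = q) : wc s w univ = 0 := by
  have h1 : (M : ℝ) - 1 ≠ 0 := by
    have : (2 : ℝ) ≤ M := by exact_mod_cast hM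
    intro h; linarith
  unfold wc
  rw [W_univ hq, Finset.card_univ, Fintype.card_fin, hs]
  field_simp
  ring

/-- first stage, undirected networks -/
lemma G_nonneg {p q s : ℝ} (hM : 2 ≤ M) (hp : 0 ≤ p) (hq0 : 0 ≤ q)
    (hs : s = 2 * q / ((M : ℝ) - 1)) {w : Fin M → Fin M → ℝ} (hw : ∀ i j, 0 ≤ w i j)
    (hq : ∀ j, ∑ k, w k j = q) (h0 : ∀ j, w j j = 0) (hsym : ∀ i j, w i j = w j i) :
    ∀ d k : ℕ, M ≤ k + d → ∀ t, 0 ≤ t → 0 ≤ Ex p w (phi s w k) t := by
  have hs0 : 0 ≤ s := by
    have : (2 : ℝ) ≤ M := by exact_mod_cast hM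
    rw [hs]; apply div_nonneg <;> linarith
  intro d
  induction d with
  | zero =>
    intro k hk t _
    have : ∀ A, phi s w k A = 0 := by
      intro A
      unfold phi
      have hc : Aᶜ.card ≤ M := by
        simpa using Finset.card_le_univ Aᶜ
      rw [Nat.choose_eq_zero_of_lt (by omega)]; simp
    unfold Ex
    simp [this]
  | succ d ih =>
    intro k hk
    apply ode_nonneg (R := (p + q) * (k + 2) - s * ((k + 2) * (k + 1) / 2))
      (hasDerivAt_Ex p w (phi s w k))
    · rw [Ex_zero]
      unfold phi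
      rw [Finset.compl_empty, wc_univ hM hs hq]; simp
    · intro t ht
      have h1 := ih (k + 1) (by omega) t ht
      have h2 := Ex_mono (p := p) hp hw (L_phi (p := p) (s := s) hq h0 hsym k) ht
      rw [Ex_lin] at h2
      have h3 : 0 ≤ s * (((k:ℝ) + 2) * ((k:ℝ) + 1) / 2) * Ex p w (phi s w (k + 1)) t := by
        positivity
      linarith

lemma wc_complete {q s : ℝ} (hM : 2 ≤ M) (hs : s = 2 * q / ((M : ℝ) - 1))
    (U : Finset (Fin M)) : wc s (complete (M := M) q) U = 0 := by
  have h1 : (M : ℝ) - 1 ≠ 0 := by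
    have : (2 : ℝ) ≤ M := by exact_mod_cast hM
    intro h; linarith
  have hQ : ∀ j ∈ U, Qin (complete (M := M) q) U j = ((U.card : ℝ) - 1) * (q / ((M : ℝ) - 1)) := by
    intro j hj
    unfold Qin complete
    rw [← Finset.sum_erase_add U _ hj]
    simp only [if_true, add_zero]
    rw [Finset.sum_congr rfl (g := fun _ => q / ((M : ℝ) - 1))
      (fun k hk => if_neg (Finset.ne_of_mem_erase hk)), Finset.sum_const,
      Finset.card_erase_of_mem hj, nsmul_eq_mul, Nat.cast_sub (Finset.card_pos.2 ⟨j, hj⟩)]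
    simp
  unfold wc W
  rw [Finset.sum_congr rfl hQ, Finset.sum_const, nsmul_eq_mul, hs]
  field_simp
  ring

lemma complete_nonneg {q : ℝ} (hM : 2 ≤ M) (hq0 : 0 ≤ q) (i j : Fin M) :
    0 ≤ complete (M := M) q i j := by
  have : (2 : ℝ) ≤ M := by exact_mod_cast hM
  unfold complete
  split_ifs
  · exact le_rfl
  · apply div_nonneg hq0; linarith

lemma complete_diag (q : ℝ) (j : Fin M) : complete (M := M) q j j = 0 := by
  simp [complete]

lemma complete_sum {q : ℝ} (hM : 2 ≤ M) (j : Fin M) : ∑ k, complete (M := M) q k j = q := by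
  have h1 : (M : ℝ) - 1 ≠ 0 := by
    have : (2 : ℝ) ≤ M := by exact_mod_cast hM
    intro h; linarith
  rw [← Finset.sum_erase_add univ _ (mem_univ j), complete_diag, add_zero]
  unfold complete
  rw [Finset.sum_congr rfl (g := fun _ => q / ((M : ℝ) - 1))
      (fun k hk => if_neg (Finset.ne_of_mem_erase hk)), Finset.sum_const,
      Finset.card_erase_of_mem (mem_univ j), nsmul_eq_mul, Finset.card_univ, Fintype.card_fin,
      Nat.cast_sub (by omega)]
  push_cast
  field_simp

/-- second stage -/
lemma stage_two {p q s : ℝ} (hM : 2 ≤ M) (hp : 0 ≤ p) (hq0 : 0 ≤ q)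
    (hs : s = 2 * q / ((M : ℝ) - 1)) {w : Fin M → Fin M → ℝ} (hw : ∀ i j, 0 ≤ w i j)
    (hq : ∀ j, ∑ k, w k j = q) (h0 : ∀ j, w j j = 0)
    (hG : ∀ k t, 0 ≤ t → 0 ≤ Ex p w (phi s w k) t) :
    ∀ d k : ℕ, M ≤ k + d → ∀ t, 0 ≤ t →
      Ex p (complete (M := M) q) (hh k) t ≤ Ex p w (hh k) t := by
  have hs0 : 0 ≤ s := by
    have : (2 : ℝ) ≤ M := by exact_mod_cast hM
    rw [hs]; apply div_nonneg <;> linarith
  have hsrc : ∀ k t, 0 ≤ t →
      0 ≤ Ex p w (fun A => wc s w Aᶜ * ((Aᶜ.card - 1).choose k : ℝ)) t := by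
    intro k t ht
    cases k with
    | zero =>
      have := hG 0 t ht
      have e : Ex p w (fun A => wc s w Aᶜ * ((Aᶜ.card - 1).choose 0 : ℝ)) t =
          Ex p w (phi s w 0) t := by
        unfold Ex phi
        simp
      rw [e]; exact this
    | succ k =>
      have a := hG k t ht
      have b := hG (k + 1) t ht
      have e : Ex p w (fun A => wc s w Aᶜ * ((Aᶜ.card - 1).choose (k + 1) : ℝ)) t =
          Ex p w (fun A => 1 * phi s w k A + 1 * phi s w (k + 1) A) t := by
        unfold Ex
        refine Finset.sum_congr rfl (fun A _ => ?_)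
        congr 1
        unfold phi
        show wc s w Aᶜ * ((Aᶜ.card - 1).choose (k + 1) : ℝ) =
          1 * (wc s w Aᶜ * ((Aᶜ.card - 2).choose k : ℝ)) +
          1 * (wc s w Aᶜ * ((Aᶜ.card - 2).choose (k + 1) : ℝ))
        rcases Nat.lt_or_ge Aᶜ.card 2 with hc | hc
        · rw [wc_card_le_one (s := s) h0 (U := Aᶜ) (by omega)]; simp
        · have e1 : Aᶜ.card - 1 = (Aᶜ.card - 2) + 1 := by omega
          rw [e1, choose_pascal]; ring
      rw [e, Ex_lin]
      linarith
  intro d
  induction d with
  | zero =>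
    intro k hk t _
    have : ∀ A : Finset (Fin M), hh k A = 0 := by
      intro A
      unfold hh
      have hc : Aᶜ.card ≤ M := by
        simpa using Finset.card_le_univ Aᶜ
      rw [Nat.choose_eq_zero_of_lt (by omega)]; simp
    unfold Ex
    simp only [this, mul_zero, Finset.sum_const_zero, le_refl]
  | succ d ih =>
    intro k hk
    have main : ∀ t, 0 ≤ t → 0 ≤ Ex p w (hh k) t - Ex p (complete (M := M) q) (hh k) t := by
      apply ode_nonneg (R := (p + q) * (k + 1) - s * ((k + 1) * k / 2))
        (fun t => (hasDerivAt_Ex p w (hh k) t).sub (hasDerivAt_Ex p (complete (M := M) q) (hh k) t))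
      · show 0 ≤ Ex p w (hh k) 0 - Ex p (complete (M := M) q) (hh k) 0
        rw [Ex_zero, Ex_zero]; simp
      · intro t ht
        show -((p + q) * (k + 1) - s * ((k + 1) * k / 2)) *
          (Ex p w (hh k) t - Ex p (complete (M := M) q) (hh k) t) ≤ _
        have h1 := ih (k + 1) (by omega) t ht
        have e1 : Ex p w (Lop p w (hh k)) t =
            -((p + q) * (k + 1) - s * ((k + 1) * k / 2)) * Ex p w (hh k) t
            + s * ((k + 1) * (k + 2) / 2) * Ex p w (hh (k + 1)) t
            + Ex p w (fun A => wc s w Aᶜ * ((Aᶜ.card - 1).choose k : ℝ)) t := by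
          unfold Ex
          rw [Finset.mul_sum, Finset.mul_sum, ← Finset.sum_add_distrib, ← Finset.sum_add_distrib]
          refine Finset.sum_congr rfl (fun A _ => ?_)
          rw [L_hh (s := s) hq h0 k A]; ring
        have e2 : Ex p (complete (M := M) q) (Lop p (complete q) (hh k)) t =
            -((p + q) * (k + 1) - s * ((k + 1) * k / 2)) * Ex p (complete (M := M) q) (hh k) t
            + s * ((k + 1) * (k + 2) / 2) * Ex p (complete (M := M) q) (hh (k + 1)) t := by
          unfold Ex
          rw [Finset.mul_sum, Finset.mul_sum, ← Finset.sum_add_distrib]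
          refine Finset.sum_congr rfl (fun A _ => ?_)
          rw [L_hh (s := s) (complete_sum hM) (complete_diag q) k A, wc_complete hM hs]; ring
        rw [e1, e2]
        have h3 : 0 ≤ s * (((k:ℝ) + 1) * ((k:ℝ) + 2) / 2) *
            (Ex p w (hh (k + 1)) t - Ex p (complete (M := M) q) (hh (k + 1)) t) := by
          apply mul_nonneg (by positivity)
          linarith
        have h4 := hsrc k t ht
        linarith
    intro t ht
    linarith [main t ht]

/-- from expected number of non-adopters to the adoption level -/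
lemma adoption_eq (hM : 2 ≤ M) (p : ℝ) (w : Fin M → Fin M → ℝ) (t : ℝ) :
    adoption p w t = 1 - (1 / (M : ℝ)) * Ex p w (hh 0) t := by
  have hM0 : (M : ℝ) ≠ 0 := by
    have : 0 < M := by omega
    exact_mod_cast this.ne'
  have h1 : ∑ A, law p w t A * (A.card : ℝ) = M * (∑ A, law p w t A) - Ex p w (hh 0) t := by
    unfold Ex
    rw [Finset.mul_sum, ← Finset.sum_sub_distrib]
    refine Finset.sum_congr rfl (fun A _ => ?_)
    unfold hh
    have : (A.card : ℝ) + (Aᶜ.card : ℝ) = M := by
      have := Finset.card_add_card_compl A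
      rw [Fintype.card_fin] at this
      exact_mod_cast this
    simp only [zero_add, Nat.choose_one_right]
    rw [← this]; ring
  unfold adoption
  rw [h1, sum_law]
  field_simp

/-- directed networks on three nodes: first stage -/
lemma G_three {p q s : ℝ} (hp : 0 ≤ p) (hq0 : 0 ≤ q)
    (hs : s = 2 * q / (((3 : ℕ) : ℝ) - 1)) {w : Fin 3 → Fin 3 → ℝ} (hw : ∀ i j, 0 ≤ w i j)
    (hq : ∀ j, ∑ k, w k j = q) (h0 : ∀ j, w j j = 0) :
    ∀ k t, 0 ≤ t → 0 ≤ Ex p w (phi s w k) t := by
  intro k t ht
  have huniv : wc s w univ = 0 := wc_univ (by norm_num) hs hq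
  -- only the sets with two non-adopters matter
  set c : Fin 3 → ℝ := fun l => wc s w ({l} : Finset (Fin 3))ᶜ with hc
  set x : Fin 3 → ℝ → ℝ := fun l t => law p w t {l} with hx
  have hsum : ∑ l, c l = 0 := by
    have e : ∀ l, c l = W w univ - q - (∑ i, w l i) - s := by
      intro l
      simp only [hc]
      have h1 : (({l} : Finset (Fin 3))ᶜ) = univ.erase l := by
        ext i; simp
      unfold wc
      rw [h1, W_erase h0 (mem_univ l)]
      have h2 : Qin w univ l = q := hq l
      have h3 : ((univ.erase l : Finset (Fin 3)).card : ℝ) = 2 := by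
        rw [Finset.card_erase_of_mem (mem_univ l)]; simp
      rw [h2, h3]; ring
    simp_rw [e]
    rw [Finset.sum_sub_distrib, Finset.sum_sub_distrib, Finset.sum_sub_distrib]
    have h4 : ∑ l : Fin 3, ∑ i, w l i = 3 * q := by
      rw [Finset.sum_comm]; simp [hq]
    rw [h4, W_univ hq]
    simp only [Finset.sum_const, Finset.card_univ, Fintype.card_fin, nsmul_eq_mul]
    rw [hs]; push_cast; ring
  have hrate0 : ∀ l : Fin 3, rate p w ∅ l = p := by intro l; simp [rate]
  have hder : ∀ l t, HasDerivAt (x l)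
      (p * law p w t ∅ - ((p + q) * 2 - s - c l) * x l t) t := by
    intro l t
    have h := hasDerivAt_law p w t ({l} : Finset (Fin 3))
    rw [law_deriv_eq] at h
    have e1 : ∑ j ∈ ({l} : Finset (Fin 3)), law p w t (({l} : Finset (Fin 3)).erase j) *
        rate p w (({l} : Finset (Fin 3)).erase j) j = p * law p w t ∅ := by
      simp [hrate0, mul_comm]
    have e2 : ∑ j ∈ ({l} : Finset (Fin 3))ᶜ, rate p w {l} j = (p + q) * 2 - s - c l := by
      rw [total_rate (s := s) hq]
      have h3 : ((({l} : Finset (Fin 3))ᶜ).card : ℝ) = 2 := by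
        rw [Finset.card_compl]; simp
      rw [h3]
      simp only [hc]; ring
    rw [e1, e2] at h
    exact h
  have hcomp : ∀ l l' t, 0 ≤ t → c l' ≤ c l → x l' t ≤ x l t := by
    intro l l' t ht hcc
    have := ode_nonneg (f := fun t => x l t - x l' t) (R := (p + q) * 2 - s - c l)
      (fun t => (hder l t).sub (hder l' t))
      (by simp only [hx]; rw [law_zero, law_zero]; simp)
      (fun t ht => by
        show -((p + q) * 2 - s - c l) * (x l t - x l' t) ≤ _
        have h1 : 0 ≤ x l' t := law_nonneg hp hw _ t ht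
        have h2 : 0 ≤ (c l - c l') * x l' t := mul_nonneg (by linarith) h1
        nlinarith) t ht
    linarith
  have hch : 0 ≤ ∑ l, c l * x l t := by
    have hpair : ∀ l l', 0 ≤ (c l - c l') * (x l t - x l' t) := by
      intro l l'
      rcases le_total (c l') (c l) with h | h
      · exact mul_nonneg (by linarith) (by linarith [hcomp l l' t ht h])
      · exact mul_nonneg_of_nonpos_of_nonpos (by linarith) (by linarith [hcomp l' l t ht h])
    have h01 := hpair 0 1
    have h02 := hpair 0 2
    have h12 := hpair 1 2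
    rw [Fin.sum_univ_three] at hsum ⊢
    have e : (c 0 - c 1) * (x 0 t - x 1 t) + (c 0 - c 2) * (x 0 t - x 2 t)
        + (c 1 - c 2) * (x 1 t - x 2 t) =
        3 * (c 0 * x 0 t + c 1 * x 1 t + c 2 * x 2 t)
          - (c 0 + c 1 + c 2) * (x 0 t + x 1 t + x 2 t) := by ring
    rw [hsum] at e
    linarith
  -- identify the expectation
  have hphi : ∀ A : Finset (Fin 3), phi s w k A =
      if A.card = 1 then wc s w Aᶜ * ((0 : ℕ).choose k : ℝ) else 0 := by
    intro A
    have hcc : A.card + Aᶜ.card = 3 := by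
      have := Finset.card_add_card_compl A
      rwa [Fintype.card_fin] at this
    unfold phi
    split_ifs with h
    · have : Aᶜ.card - 2 = 0 := by omega
      rw [this]
    · rcases Nat.lt_or_ge A.card 1 with h1 | h1
      · have : A = ∅ := Finset.card_eq_zero.1 (by omega)
        subst this
        rw [Finset.compl_empty, huniv]; simp
      · rw [wc_card_le_one h0 (by omega)]; simp
  have hEx : Ex p w (phi s w k) t = ((0 : ℕ).choose k : ℝ) * ∑ l, c l * x l t := by
    unfold Ex
    simp_rw [hphi]
    have e1 : ∑ A : Finset (Fin 3), law p w t A *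
        (if A.card = 1 then wc s w Aᶜ * ((0 : ℕ).choose k : ℝ) else 0) =
        ∑ A ∈ (univ : Finset (Finset (Fin 3))).filter (fun A => A.card = 1),
          law p w t A * (wc s w Aᶜ * ((0 : ℕ).choose k : ℝ)) := by
      rw [Finset.sum_filter]
      refine Finset.sum_congr rfl (fun A _ => ?_)
      split_ifs <;> simp
    rw [e1]
    have e2 : (univ : Finset (Finset (Fin 3))).filter (fun A => A.card = 1) =
        univ.map ⟨fun l : Fin 3 => ({l} : Finset (Fin 3)), Finset.singleton_injective⟩ := by
      decide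
    rw [e2, Finset.sum_map, Finset.mul_sum]
    refine Finset.sum_congr rfl (fun l _ => ?_)
    simp only [Function.Embedding.coeFn_mk, hc, hx]
    ring
  rw [hEx]
  exact mul_nonneg (by positivity) hch

end

end Pool.Agent.R963.Bass
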