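import Pool.Agent.R963.Bass.Comb

open Finset BigOperators

set_option maxHeartbeats 400000

namespace Pool.Agent.R963.Bass

noncomputable section

variable {M : ℕ}

/-- test function of the first stage -/
def phi (s : ℝ) (w : Fin M → Fin M → ℝ) (k : ℕ) (A : Finset (Fin M)) : ℝ :=
  wc s w Aᶜ * ((Aᶜ.card - 2).choose k : ℝ)

/-- test function of the second stage -/
def hh (k : ℕ) (A : Finset (Fin M)) : ℝ := ((Aᶜ.card).choose (k + 1) : ℝ)

lemma card_erase_real {U : Finset (Fin M)} {j : Fin M} {n : ℕ} (hU : U.card = n + 1)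
    (hj : j ∈ U) : (U.erase j).card = n := by
  rw [Finset.card_erase_of_mem hj, hU]; rfl

lemma L_phi {p q s : ℝ} {w : Fin M → Fin M → ℝ} (hq : ∀ j, ∑ k, w k j = q)
    (h0 : ∀ j, w j j = 0) (hs : ∀ i j, w i j = w j i) (k : ℕ) (A : Finset (Fin M)) :
    -((p + q) * (k + 2) - s * ((k + 2) * (k + 1) / 2)) * phi s w k A
      + s * ((k + 2) * (k + 1) / 2) * phi s w (k + 1) A ≤ Lop p w (phi s w k) A := by
  rcases Nat.lt_or_ge Aᶜ.card 2 with hc | hc
  · -- card ≤ 1
    have e1 : ∀ k, phi s w k A = 0 := by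
      intro k; unfold phi; rw [wc_card_le_one h0 (by omega)]; simp
    have e2 : Lop p w (phi s w k) A = 0 := by
      unfold Lop
      refine Finset.sum_eq_zero (fun j hj => ?_)
      rw [e1]
      unfold phi
      rw [Finset.compl_insert, wc_card_le_one h0 (by
        have := Finset.card_erase_le (s := Aᶜ) (a := j); omega)]
      simp
    rw [e1, e1, e2]; simp
  · obtain ⟨n, hn⟩ := Nat.exists_eq_add_of_le hc
    rcases Nat.eq_zero_or_pos n with hn0 | hn0
    · -- card = 2
      subst hn0
      have hcard : Aᶜ.card = 2 := by omega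
      have e2 : Lop p w (phi s w k) A = - (∑ j ∈ Aᶜ, rate p w A j) * phi s w k A := by
        unfold Lop
        rw [neg_mul, Finset.sum_mul, ← Finset.sum_neg_distrib]
        refine Finset.sum_congr rfl (fun j hj => ?_)
        have : phi s w k (insert j A) = 0 := by
          unfold phi
          rw [Finset.compl_insert, wc_card_le_one h0 (by
            rw [card_erase_real (n := 1) (by omega) hj])]
          simp
        rw [this]; ring
      rw [e2, total_rate (s := s) hq A, hcard]
      unfold phi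
      rw [hcard]
      simp only [Nat.sub_self, Nat.cast_ofNat]
      rcases Nat.eq_zero_or_pos k with hk | hk
      · subst hk
        simp only [Nat.choose_self, Nat.cast_one, Nat.choose_zero_succ, Nat.cast_zero, zero_add]
        nlinarith [sq_nonneg (wc s w Aᶜ)]
      · have c1 : (0 : ℕ).choose k = 0 := Nat.choose_eq_zero_of_lt hk
        have c2 : (0 : ℕ).choose (k + 1) = 0 := Nat.choose_eq_zero_of_lt (by omega)
        rw [c1, c2]; simp
    · obtain ⟨m, rfl⟩ := Nat.exists_eq_add_of_lt hn0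
      have hcard : Aᶜ.card = m + 3 := by omega
      have hsub : Aᶜ.card - 2 = m + 1 := by omega
      set a : ℝ := (m.choose k : ℝ) with ha
      set b : ℝ := ((m + 1).choose k : ℝ) with hb
      set b' : ℝ := ((m + 1).choose (k + 1) : ℝ) with hb'
      set x : ℝ := wc s w Aᶜ with hx
      have hab : a ≤ b := by
        rw [ha, hb]; exact_mod_cast Nat.choose_le_choose k (Nat.le_succ m)
      have ha0 : 0 ≤ a := by rw [ha]; positivity
      have hcr : ((Aᶜ.card : ℕ) : ℝ) = (m : ℝ) + 3 := by rw [hcard]; push_cast; ring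
      have e1 : phi s w k A = x * b := by unfold phi; rw [hsub]
      have e1' : phi s w (k + 1) A = x * b' := by unfold phi; rw [hsub]
      have hQ : ∀ j, Qin w Aᶜ j = (dd s w Aᶜ j + s * ((m : ℝ) + 2)) / 2 := by
        intro j; unfold dd; rw [hcr]; ring
      have hsumd : ∑ j ∈ Aᶜ, dd s w Aᶜ j = 2 * x := by
        rw [hx]; unfold dd wc W
        rw [Finset.sum_sub_distrib, ← Finset.mul_sum]
        simp only [Finset.sum_const, nsmul_eq_mul]
        ring
      have e2 : Lop p w (phi s w k) A =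
          ∑ j ∈ Aᶜ, (p + q - Qin w Aᶜ j) * ((x - dd s w Aᶜ j) * a - x * b) := by
        unfold Lop
        refine Finset.sum_congr rfl (fun j hj => ?_)
        rw [rate_eq hq, e1]
        have : phi s w k (insert j A) = (x - dd s w Aᶜ j) * a := by
          unfold phi
          rw [Finset.compl_insert, wc_erase h0 hs hj,
            card_erase_real (n := m + 2) (by omega) hj]
          rfl
        rw [this]
      have e3 : ∑ j ∈ Aᶜ, (p + q - Qin w Aᶜ j) * ((x - dd s w Aᶜ j) * a - x * b) =
          - (x * (b - a)) * (∑ j ∈ Aᶜ, (p + q - Qin w Aᶜ j))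
          - a * (p + q - s * ((m : ℝ) + 2) / 2) * (∑ j ∈ Aᶜ, dd s w Aᶜ j)
          + a / 2 * ∑ j ∈ Aᶜ, (dd s w Aᶜ j) ^ 2 := by
        rw [Finset.mul_sum, Finset.mul_sum, Finset.mul_sum, ← Finset.sum_sub_distrib,
          ← Finset.sum_add_distrib]
        refine Finset.sum_congr rfl (fun j hj => ?_)
        rw [hQ j]
        ring
      have e4 : ∑ j ∈ Aᶜ, (p + q - Qin w Aᶜ j) =
          (p + q) * ((m : ℝ) + 3) - s * (((m : ℝ) + 3) * ((m : ℝ) + 2) / 2) - x := by
        have := total_rate (p := p) (s := s) hq A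
        simp_rw [rate_eq hq] at this
        rw [this, hcr]; ring
      rw [e1, e1', e2, e3, e4, hsumd]
      have hd2 : 0 ≤ ∑ j ∈ Aᶜ, (dd s w Aᶜ j) ^ 2 := Finset.sum_nonneg (fun _ _ => sq_nonneg _)
      have h1 : 0 ≤ a / 2 * ∑ j ∈ Aᶜ, (dd s w Aᶜ j) ^ 2 := mul_nonneg (by linarith) hd2
      have h2 : 0 ≤ x ^ 2 * (b - a) := mul_nonneg (sq_nonneg _) (by linarith)
      have i1 := choose_id1 m k
      have i2 := choose_id2 (m + 1) k
      have i3 := choose_pascal (m + 1) k
      rw [← ha, ← hb] at i1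
      rw [i3, ← hb, ← hb'] at i2
      push_cast at i2
      have key : -((p + q) * ((k:ℝ) + 2) - s * (((k:ℝ) + 2) * ((k:ℝ) + 1) / 2)) * (x * b)
          + s * (((k:ℝ) + 2) * ((k:ℝ) + 1) / 2) * (x * b') =
          - (x * (b - a)) * ((p + q) * ((m : ℝ) + 3)
            - s * (((m : ℝ) + 3) * ((m : ℝ) + 2) / 2))
          - a * (p + q - s * ((m : ℝ) + 2) / 2) * (2 * x) := by
        linear_combination (x * (-(p + q) + s * ((m:ℝ) + 2) / 2)) * i1
          - (x * s * ((k:ℝ) + 2) / 2) * i2
      rw [key]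
      nlinarith [h1, h2]

lemma L_hh {p q s : ℝ} {w : Fin M → Fin M → ℝ} (hq : ∀ j, ∑ k, w k j = q)
    (h0 : ∀ j, w j j = 0) (k : ℕ) (A : Finset (Fin M)) :
    Lop p w (hh k) A =
      -((p + q) * (k + 1) - s * ((k + 1) * k / 2)) * hh k A
      + s * ((k + 1) * (k + 2) / 2) * hh (k + 1) A
      + wc s w Aᶜ * ((Aᶜ.card - 1).choose k : ℝ) := by
  rcases Nat.eq_zero_or_pos Aᶜ.card with hc | hc
  · have e1 : Lop p w (hh k) A = 0 := by
      unfold Lop
      rw [Finset.card_eq_zero.1 hc]; simp
    rw [e1, wc_card_le_one h0 (by omega)]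
    unfold hh
    rw [hc]; simp
  · obtain ⟨n, hn⟩ := Nat.exists_eq_add_of_lt hc
    have hcard : Aᶜ.card = n + 1 := by omega
    have hsub : Aᶜ.card - 1 = n := by omega
    have e1 : Lop p w (hh k) A = -(n.choose k : ℝ) * ∑ j ∈ Aᶜ, rate p w A j := by
      unfold Lop
      rw [Finset.mul_sum]
      refine Finset.sum_congr rfl (fun j hj => ?_)
      unfold hh
      rw [Finset.compl_insert, card_erase_real hcard hj, hcard, choose_pascal]
      ring
    rw [e1, total_rate (s := s) hq A, hsub]
    unfold hh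
    rw [hcard]
    have i1 := choose_id2 n k
    have i2 := choose_id2 (n + 1) (k + 1)
    have i3 := choose_pascal (n + 1) (k + 1)
    rw [i3] at i2
    push_cast at i1 i2 ⊢
    linear_combination (-(p + q) + s * (n:ℝ) / 2) * i1 + (s * ((k:ℝ) + 1) / 2) * i2

end

end Pool.Agent.R963.Bass
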